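import Mathlib
import Pool.Agent.R813.TB.Final

set_option autoImplicit false

/-!
For every `d ≥ 2` there is a compact set `K` in `ℝ^d` with positive and finite `(d-1)`-dimensional
Hausdorff measure which satisfies the `s`-tube bound for every `s < d - 1` at once.
-/

namespace Pool.Agent.Results.MP_e5cefd_an.TubeSet

open MeasureTheory Measure

theorem result (d : ℕ) (hd : 2 ≤ d) : ∃ K : Set (EuclideanSpace ℝ (Fin d)), IsCompact K ∧
    0 < μH[(d : ℝ) - 1] K ∧ μH[(d : ℝ) - 1] K < ⊤ ∧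
    ∀ s : ℝ, s < (d : ℝ) - 1 → ∃ C : ℝ,
      ∀ p v : EuclideanSpace ℝ (Fin d), v ≠ 0 → ∀ w : ℝ, 0 < w → (0 ≤ s ∨ w ≤ 1) →
        μH[(d : ℝ) - 1] (K ∩ {x | Metric.infDist x (Set.range fun t : ℝ => p + t • v) ≤ w / 2}) ≤
          ENNReal.ofReal (C * w ^ s) := by
  obtain ⟨k, rfl⟩ : ∃ k, d = k + 1 := ⟨d - 1, by omega⟩
  have e : (((k + 1 : ℕ) : ℝ) - 1) = (k : ℝ) := by push_cast; ring
  rw [e]
  exact Pool.Agent.R813.TB.main k

end Pool.Agent.Results.MP_e5cefd_an.TubeSet
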